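import Pool.Agent.Y55.GCR.Power

/-!
# The end of a descent, seen from an arbitrary time of it
-/

set_option autoImplicit false

namespace Pool.Agent.Y55.GCR

open Finset Pool.Agent.H399R2 Pool.Agent.TH999.GCR

/-- a part of a segment is a segment -/
theorem seg_sub {x : ℕ → ℕ} {V : ℕ → ℤ} {s e t : ℕ} (h : Seg x V s e) (h1 : s ≤ t) (h2 : t ≤ e) :
    Seg x V t e :=
  ⟨h2, fun n hn hn2 => h.step n (h1.trans hn) hn2, fun n hn hn2 => h.pos n (h1.trans hn) hn2⟩

/-- A good segment ends with a run of unit steps, and its total length is at most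
`M / (M + 1)` times the value at the start, up to the length of the last run and a power saving. -/
theorem tail (M κ : ℕ) (hM : 0 < M) : ∃ δ C : ℝ, 0 < δ ∧ δ ≤ 1 / 4 ∧ 0 < C ∧
    ∀ (x : ℕ → ℕ) (V : ℕ → ℤ) (s e : ℕ)
    (per : ℕ → ℕ) (R : ℕ → Finset ℕ), Good x V s e M κ per R → x e = 0 →
    ∃ l, s ≤ l ∧ l ≤ e ∧ (∀ i, l ≤ i → i < e → Int.gcd (x i) (V (i + 1)) = 1) ∧
      (∀ k, l ≤ k → k ≤ e → x k = e - k) ∧
      ((M : ℝ) + 1) * ((e : ℝ) - s) ≤ M * x s + ((e : ℝ) - l) + C * (x s : ℝ) ^ (1 - δ) := by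
  obtain ⟨δ, C, hδ, hδ4, hC, h⟩ := main_power M κ hM
  refine ⟨δ, C, hδ, hδ4, hC, ?_⟩
  intro x V s e per R hg hxe
  rcases Nat.eq_or_lt_of_le hg.seg.le with hse | hse
  · subst hse
    refine ⟨s, le_rfl, le_rfl, fun i h1 h2 => absurd h1 (by omega), fun k h1 h2 => ?_, ?_⟩
    · have : k = s := by omega
      rw [this, hxe]
      simp
    · rw [hxe]
      simp only [sub_self, mul_zero, Nat.cast_zero, add_zero, zero_add]
      rw [Real.zero_rpow (by linarith)]
      simp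
  have hpos := hg.seg.pos s le_rfl hse
  have hdec := decr hg.seg e hg.seg.le le_rfl
  obtain ⟨l, hsl, hle, htr, hl⟩ := h x V s e per R hg (x s : ℝ) (by exact_mod_cast hpos) (by
    have : e ≤ x s + s := by omega
    exact_mod_cast this)
  have hrun : ∀ k, l ≤ k → k ≤ e → x k = e - k := by
    intro k hk1 hk2
    have h1 := hg.seg.run hsl le_rfl htr k hk1 hk2
    omega
  refine ⟨l, hsl, hle, htr, hrun, ?_⟩
  have hxl : (x l : ℝ) = (e : ℝ) - l := by
    rw [hrun l le_rfl hle, Nat.cast_sub hle]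
  rw [hxl] at hl
  linarith

end Pool.Agent.Y55.GCR
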