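import Pool.Agent.TH999.GCR.Rate
import Pool.Agent.H373R2.T7.Fund

/-!
# Subtractive gcd recursions: a power saving in the main inequality

The fundamental lemma of the sieve (helper373's `sys_fund`, for any bounded number of residue
classes) replaces the sieve of Eratosthenes in the count of the levels which can be passed only at
jumps by large primes. All primes up to a small power of the length are used, and the potential
`(M+1) n + M x(n)` grows by at most `C X ^ (1 - δ)` in a segment of length `X`.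
-/

set_option autoImplicit false

namespace Pool.Agent.Y55.GCR

open Finset Pool.Agent.H399R2 Pool.Agent.TH999.GCR
open Pool.Agent.H373R2.T7 (sys_fund PerB nuB pz mem_pz)

theorem pz_eq (k : ℕ) : pz (2 ^ k) = pr k := by
  ext p
  rw [mem_pz, mem_pr]

/-- the classes as a property -/
def Qr (R : ℕ → Finset ℕ) (p n : ℕ) : Prop := n % p ∈ R p

theorem sieve (κ : ℕ) : ∃ K x0 : ℕ, 1 ≤ K ∧ ∀ (k J : ℕ) (R : ℕ → Finset ℕ), x0 ≤ 2 ^ k →
    (∀ p : ℕ, p.Prime → #(R p) ≤ ww κ p) →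
    1 / 2 * (J * Pool.Agent.TH999.GCR.dens κ k) - √(((2 ^ k) ^ K : ℕ) : ℝ) ≤
      (cnt (pr k) R 1 1 J : ℝ) := by
  classical
  obtain ⟨K, x0, hK, h⟩ := sys_fund (max κ 1) (le_max_right _ _) (1 / 2) (by norm_num)
  refine ⟨K, x0, hK, fun k J R hk hR => ?_⟩
  have hww : ∀ p : ℕ, p.Prime → ww κ p ≤ κ := by
    intro p hp
    unfold ww
    split_ifs <;> omega
  have hnu : ∀ p : ℕ, p.Prime → nuB (Qr R) p ≤ ww κ p := by
    intro p hp
    refine le_trans ?_ (hR p hp)
    unfold nuB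
    apply card_le_card
    intro r hr
    rw [mem_filter, mem_range] at hr
    have h1 : r % p ∈ R p := hr.2
    rwa [Nat.mod_eq_of_lt hr.1] at h1
  have hQ : PerB (Qr R) (max κ 1) := by
    refine ⟨fun p n => by unfold Qr; rw [Nat.mod_mod], fun p hp => ?_⟩
    exact (hnu p hp).trans ((hww p hp).trans (le_max_left _ _))
  have h1 := h ((2 ^ k) ^ K) (2 ^ k) hk le_rfl _ hQ J
  rw [pz_eq] at h1
  set P : ℝ := ∏ p ∈ pr k, (1 - (nuB (Qr R) p : ℝ) / p) with hP
  obtain ⟨F, hF, h1⟩ : ∃ F : Finset ℕ, (∀ n ∈ F, n ∈ Icc 1 J ∧ ∀ p ∈ pr k, ¬ Qr R p n) ∧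
      |(F.card : ℝ) - J * P| ≤ 1 / 2 * (J * P) + √(((2 ^ k) ^ K : ℕ) : ℝ) := by
    refine ⟨_, ?_, h1⟩
    intro n hn
    exact mem_filter.mp hn
  have hPd : Pool.Agent.TH999.GCR.dens κ k ≤ P := by
    unfold Pool.Agent.TH999.GCR.dens
    apply prod_le_prod
    · intro p hp
      positivity
    · intro p hp
      have hp' := (mem_pr.mp hp).2
      have hp0 : (0 : ℝ) < p := by exact_mod_cast hp'.pos
      have h2 := hnu p hp'
      have h3 := ww_lt (κ := κ) hp'
      rw [div_le_iff₀ hp0, sub_mul, one_mul, div_mul_cancel₀ _ hp0.ne', Nat.cast_sub h3.le]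
      have : (nuB (Qr R) p : ℝ) ≤ ww κ p := by exact_mod_cast h2
      linarith
  have hcard : (F.card : ℝ) ≤ (cnt (pr k) R 1 1 J : ℝ) := by
    have : F.card ≤ cnt (pr k) R 1 1 J := by
      unfold cnt
      apply card_le_card_of_injOn (fun n => n - 1)
      · intro n hn
        rw [mem_coe] at hn
        replace hn := hF n hn
        rw [mem_Icc] at hn
        rw [mem_coe, mem_filter, mem_range]
        have hn1 := hn.1
        refine ⟨?_, fun p hp => ?_⟩
        · show n - 1 < J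
          omega
        · have e1 : 1 + 1 * (n - 1) = n := by omega
          show (1 + 1 * (n - 1)) % p ∉ R p
          rw [e1]
          exact hn.2 p hp
      · intro n hn n' hn' hnn
        rw [mem_coe] at hn hn'
        replace hn := (hF n hn).1
        replace hn' := (hF n' hn').1
        rw [mem_Icc] at hn hn'
        simp only at hnn
        omega
    exact_mod_cast this
  have h4 := (abs_le.mp h1).1
  have hJ0 : (0 : ℝ) ≤ J := Nat.cast_nonneg _
  have h5 : (J : ℝ) * Pool.Agent.TH999.GCR.dens κ k ≤ J * P := mul_le_mul_of_nonneg_left hPd hJ0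
  linarith

/-- **Main inequality with a power saving.** The last jump `l` before the end of a good segment of
length at most `X ≥ 1` satisfies `Φ(l) ≤ Φ(s) + C X ^ (1 - δ)`, with `δ`, `C` depending on `M` and
`κ` only. -/
theorem main_power (M κ : ℕ) (hM : 0 < M) : ∃ δ C : ℝ, 0 < δ ∧ δ ≤ 1 / 4 ∧ 0 < C ∧
    ∀ (x : ℕ → ℕ) (V : ℕ → ℤ) (s e : ℕ)
    (per : ℕ → ℕ) (R : ℕ → Finset ℕ), Good x V s e M κ per R → ∀ X : ℝ, 1 ≤ X →
    (e : ℝ) ≤ X + s →
    ∃ l, s ≤ l ∧ l ≤ e ∧ (∀ i, l ≤ i → i < e → Int.gcd (x i) (V (i + 1)) = 1) ∧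
      ((M + 1) * l + M * x l : ℝ) ≤ (M + 1) * s + M * x s + C * X ^ (1 - δ) := by
  obtain ⟨K, x0, hK, hsieve⟩ := sieve κ
  obtain ⟨c, hc, hgrow⟩ := dens_growth κ
  set δ : ℝ := 1 / (2 * (K + 1)) with hδ
  have hKr : (1 : ℝ) ≤ K := by exact_mod_cast hK
  have hδ0 : 0 < δ := by positivity
  have hδ1 : δ ≤ 1 / 4 := by
    rw [hδ]
    apply one_div_le_one_div_of_le (by norm_num)
    linarith
  set X0 : ℝ := (2 * ((x0 : ℝ) + 1)) ^ (K + 1) with hX0
  have hX01 : 1 ≤ X0 := by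
    apply one_le_pow₀
    have : (0 : ℝ) ≤ x0 := Nat.cast_nonneg _
    linarith
  have hMr : (1 : ℝ) ≤ M := by exact_mod_cast hM
  set C1 : ℝ := X0 ^ δ + 8 / c with hC1
  have hX0δ : 0 < X0 ^ δ := Real.rpow_pos_of_pos (by linarith) _
  refine ⟨δ, M * (C1 + 1), hδ0, hδ1, by positivity, ?_⟩
  intro x V s e per R hg X hX heX
  have hX00 : 0 < X := by linarith
  have hsplit : X ^ δ * X ^ (1 - δ) = X := by
    rw [← Real.rpow_add hX00]
    simp
  have hXp : 0 < X ^ (1 - δ) := Real.rpow_pos_of_pos hX00 _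
  have hXp1 : 1 ≤ X ^ (1 - δ) := Real.one_le_rpow hX (by linarith)
  -- it is enough to find `k` for which `J ≤ C1 X ^ (1 - δ)`
  suffices hk : ∃ k : ℕ, ∀ J : ℕ, ((M * 2 ^ k + 1 : ℕ) : ℝ) * (cnt (pr k) R 1 1 J : ℝ) ≤ X →
      (J : ℝ) ≤ C1 * X ^ (1 - δ) by
    obtain ⟨k, hk⟩ := hk
    obtain ⟨l, J, hsl, hle, htr, hΦ, hU⟩ := hg.records hM k e hg.seg.le le_rfl
    refine ⟨l, hsl, hle, htr, ?_⟩
    have h1 : (J : ℝ) ≤ C1 * X ^ (1 - δ) := by
      apply hk
      have h2 : (((M * 2 ^ k + 1) * cnt (pr k) R 1 1 J + s : ℕ) : ℝ) ≤ ((e : ℕ) : ℝ) := by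
        have : (M * 2 ^ k + 1) * cnt (pr k) R 1 1 J + s ≤ e := by omega
        exact_mod_cast this
      push_cast at h2 ⊢
      linarith
    have hΦ' : ((M + 1) * l + M * x l : ℝ) ≤ (M + 1) * s + M * x s + M * (J + 1) := by
      have h1 : (((M + 1) * l + M * x l : ℕ) : ℝ) ≤
          (((M + 1) * s + M * x s + M * (J + 1) : ℕ) : ℝ) := by exact_mod_cast hΦ.le
      push_cast at h1
      exact h1
    have h3 : (M : ℝ) * (J + 1) ≤ M * (C1 + 1) * X ^ (1 - δ) := by
      rw [mul_assoc]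
      apply mul_le_mul_of_nonneg_left _ (by linarith)
      linarith
    linarith
  rcases lt_or_ge X X0 with hlt | hge
  · refine ⟨0, fun J hJ => ?_⟩
    have hpr0 : pr 0 = ∅ := by
      ext p
      rw [mem_pr]
      simp only [pow_zero, notMem_empty, iff_false, not_and]
      intro h1 h2
      have := h2.two_le
      omega
    have hcnt : cnt (pr 0) R 1 1 J = J := by
      unfold cnt
      rw [hpr0]
      simp
    rw [hcnt] at hJ
    push_cast at hJ
    have hJ0 : (0 : ℝ) ≤ J := Nat.cast_nonneg _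
    have h1 : (J : ℝ) ≤ X := by nlinarith
    have h2 : X ≤ X0 ^ δ * X ^ (1 - δ) := by
      calc X = X ^ δ * X ^ (1 - δ) := hsplit.symm
        _ ≤ X0 ^ δ * X ^ (1 - δ) := by
          apply mul_le_mul_of_nonneg_right _ hXp.le
          exact Real.rpow_le_rpow hX00.le hlt.le hδ0.le
    have h3 : 0 ≤ 8 / c * X ^ (1 - δ) := by positivity
    rw [hC1, add_mul]
    linarith
  · -- the largest `k` with `2 ^ (k (K+1)) ≤ X`
    have hex : ∃ k : ℕ, X < ((2 : ℝ) ^ (k + 1)) ^ (K + 1) := by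
      obtain ⟨n, hn⟩ := pow_unbounded_of_one_lt X (by norm_num : (1 : ℝ) < 2)
      refine ⟨n, hn.trans_le ?_⟩
      calc (2 : ℝ) ^ n ≤ 2 ^ (n + 1) := pow_le_pow_right₀ (by norm_num) (by omega)
        _ = (2 ^ (n + 1)) ^ 1 := (pow_one _).symm
        _ ≤ (2 ^ (n + 1)) ^ (K + 1) :=
          pow_le_pow_right₀ (one_le_pow₀ (by norm_num)) (by omega)
    classical
    set k := Nat.find hex with hkdef
    have hk1 : X < ((2 : ℝ) ^ (k + 1)) ^ (K + 1) := Nat.find_spec hex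
    have hk2 : ((2 : ℝ) ^ k) ^ (K + 1) ≤ X := by
      rcases Nat.eq_zero_or_pos k with h0 | h0
      · rw [h0]
        simpa using hX
      · have h1 := Nat.find_min hex (m := k - 1) (by omega)
        push Not at h1
        have e1 : k - 1 + 1 = k := by omega
        rw [e1] at h1
        exact h1
    refine ⟨k, fun J hJ => ?_⟩
    have hx0k : x0 ≤ 2 ^ k := by
      have h1 : 2 * ((x0 : ℝ) + 1) < 2 ^ (k + 1) := by
        by_contra hcon
        push Not at hcon
        have h2 : ((2 : ℝ) ^ (k + 1)) ^ (K + 1) ≤ (2 * ((x0 : ℝ) + 1)) ^ (K + 1) :=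
          pow_le_pow_left₀ (by positivity) hcon _
        linarith
      have h2 : ((x0 + 1 : ℕ) : ℝ) < ((2 ^ k : ℕ) : ℝ) := by
        push_cast
        rw [pow_succ] at h1
        linarith
      have h3 : x0 + 1 < 2 ^ k := by exact_mod_cast h2
      omega
    have hs := hsieve k J R hx0k hg.card_le
    have h2k : (0 : ℝ) < 2 ^ k := by positivity
    have h2k1 : (1 : ℝ) ≤ 2 ^ k := one_le_pow₀ (by norm_num)
    have hsq : √(((2 ^ k) ^ K : ℕ) : ℝ) ≤ (2 ^ k) ^ K := by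
      apply Real.sqrt_le_iff.mpr
      refine ⟨by positivity, ?_⟩
      push_cast
      have h1 : (1 : ℝ) ≤ (2 ^ k) ^ K := one_le_pow₀ h2k1
      nlinarith
    have herr : (2 : ℝ) ^ k * √(((2 ^ k) ^ K : ℕ) : ℝ) ≤ X := by
      calc (2 : ℝ) ^ k * √(((2 ^ k) ^ K : ℕ) : ℝ) ≤ 2 ^ k * (2 ^ k) ^ K :=
            mul_le_mul_of_nonneg_left hsq h2k.le
        _ = (2 ^ k) ^ (K + 1) := by ring
        _ ≤ X := hk2
    have hJ0 : (0 : ℝ) ≤ J := Nat.cast_nonneg _
    have hcnt0 : (0 : ℝ) ≤ (cnt (pr k) R 1 1 J : ℝ) := Nat.cast_nonneg _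
    have hmain : c * (3 / 2) ^ k * J ≤ 4 * X := by
      have h1 : (M : ℝ) * 2 ^ k * (cnt (pr k) R 1 1 J : ℝ) ≤ X := by
        push_cast at hJ
        nlinarith
      have h2 : (M : ℝ) * 2 ^ k * (1 / 2 * (J * dens κ k) - √(((2 ^ k) ^ K : ℕ) : ℝ)) ≤ X :=
        le_trans (mul_le_mul_of_nonneg_left hs (by positivity)) h1
      have h3 : (M : ℝ) * (1 / 2 * (J * (2 ^ k * dens κ k))) ≤ X + M * X := by
        have h4 : (M : ℝ) * (2 ^ k * √(((2 ^ k) ^ K : ℕ) : ℝ)) ≤ M * X :=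
          mul_le_mul_of_nonneg_left herr (by linarith)
        nlinarith
      have h5 : (J : ℝ) * (c * (3 / 2) ^ k) ≤ J * (2 ^ k * dens κ k) :=
        mul_le_mul_of_nonneg_left (hgrow k) hJ0
      have h6 : (M : ℝ) * (1 / 2 * (J * (c * (3 / 2) ^ k))) ≤ X + M * X := by
        refine le_trans ?_ h3
        apply mul_le_mul_of_nonneg_left _ (by linarith)
        linarith
      have h7 : (M : ℝ) * (1 / 2 * (J * (c * (3 / 2) ^ k))) ≤ M * (2 * X) := by nlinarith
      have h8 := le_of_mul_le_mul_left h7 (by linarith)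
      linarith
    -- `(3/2)^k ≥ X^δ / 2`
    have hpow : X ^ δ ≤ 2 * (3 / 2) ^ k := by
      have h1 : X ^ (1 / ((K : ℝ) + 1)) ≤ 2 ^ (k + 1) := by
        have h2 : X ^ (1 / ((K : ℝ) + 1)) ≤ (((2 : ℝ) ^ (k + 1)) ^ (K + 1)) ^ (1 / ((K : ℝ) + 1)) :=
          Real.rpow_le_rpow hX00.le hk1.le (by positivity)
        have h3 : (((2 : ℝ) ^ (k + 1)) ^ (K + 1)) ^ (1 / ((K : ℝ) + 1)) = 2 ^ (k + 1) := by
          rw [← Real.rpow_natCast ((2 : ℝ) ^ (k + 1)) (K + 1), ← Real.rpow_mul (by positivity)]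
          push_cast
          rw [mul_one_div_cancel (by positivity), Real.rpow_one]
        rwa [h3] at h2
      have h4 : (X ^ δ) ^ 2 = X ^ (1 / ((K : ℝ) + 1)) := by
        rw [← Real.rpow_natCast (X ^ δ) 2, ← Real.rpow_mul hX00.le, hδ]
        congr 1
        push_cast
        field_simp
      have h5 : (X ^ δ) ^ 2 ≤ (2 * (3 / 2) ^ k) ^ 2 := by
        rw [h4]
        refine h1.trans ?_
        have h6 : (2 : ℝ) ^ k ≤ ((3 / 2) ^ k) ^ 2 := by
          rw [← pow_mul, Nat.mul_comm, pow_mul]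
          apply pow_le_pow_left₀ (by norm_num)
          norm_num
        rw [pow_succ, mul_pow]
        nlinarith
      exact le_of_sq_le_sq h5 (by positivity)
    have hfin : (J : ℝ) ≤ 8 / c * X ^ (1 - δ) := by
      have hXδ : 0 < X ^ δ := Real.rpow_pos_of_pos hX00 _
      have h1 : c * (X ^ δ * J) ≤ 8 * X := by
        have h2 : X ^ δ * J ≤ 2 * (3 / 2) ^ k * J := mul_le_mul_of_nonneg_right hpow hJ0
        have h3 : c * (X ^ δ * J) ≤ c * (2 * (3 / 2) ^ k * J) :=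
          mul_le_mul_of_nonneg_left h2 hc.le
        nlinarith
      rw [div_mul_eq_mul_div, le_div_iff₀ hc]
      have h4 : X ^ δ * (J * c) ≤ X ^ δ * (8 * X ^ (1 - δ)) := by
        calc X ^ δ * (J * c) = c * (X ^ δ * J) := by ring
          _ ≤ 8 * X := h1
          _ = 8 * (X ^ δ * X ^ (1 - δ)) := by rw [hsplit]
          _ = _ := by ring
      exact le_of_mul_le_mul_left h4 hXδ
    have h3 : 0 ≤ X0 ^ δ * X ^ (1 - δ) := by positivity
    rw [hC1, add_mul]
    linarith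

end Pool.Agent.Y55.GCR
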